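import Pool.Agent.PolyTimeCL.CookLevin
import Pool.Agent.W_9f10ef_h38.Poly

/-!
# MP_9f10ef_co: recognising the class `𝒢^cs` is coNP-hard
-/

set_option autoImplicit false

open Turing Computability

namespace Pool.Agent.Results.MP_9f10ef_co.CoNPHard

open Pool.Agent.PolyTime Pool.Agent.W_9f10ef_h38 W_MP_9f10ef_co

/-- Recognising the class `𝒢^cs` is coNP-hard: for every language `L` in NP there is a map `f` from
bit strings to graphs (given by the number of vertices and a list of edges), computable in
polynomial time, such that every graph `f x` is connected and `x ∈ L` iff `f x` does not belong to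
`𝒢^cs`. -/
theorem result :
    Function.Injective code ∧
    ∀ L : Set (List Bool), InNP L →
      ∃ f : List Bool → GCode,
        Nonempty (TM2ComputableInPolyTime (fun x : List Bool => x) code f) ∧
        ∀ x, (graph (f x)).Connected ∧ (x ∈ L ↔ ¬ InGcs (graph (f x))) := by
  refine ⟨code_injective, fun L hL => ?_⟩
  obtain ⟨g, hg, hgL⟩ := cookLevin_nat hL
  refine ⟨fun x => gOf (g x), ?_, fun x => ⟨gOf_connected _, ?_⟩⟩
  · obtain ⟨h⟩ := PF.toTM2_raw (pf_gOf hg)
    exact ⟨⟨h.toTM2ComputableAux, h.time, fun x => by
      rw [code_eq]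
      exact h.outputsFun x⟩⟩
  · rw [hgL, sat_iff_not_inGcs]

end Pool.Agent.Results.MP_9f10ef_co.CoNPHard
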