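import Pool.Agent.W_MP_9f10ef_co.Bridge

universe u

namespace Pool.Agent.Results.MP_9f10ef_co.ContractionCriterion

open W_MP_9f10ef_co

/-- Let `G` be a finite connected graph. If `G` is contractible to `P5`, to the banner or to
`K_{2,n}` with `n ≥ 3`, then `G ∉ 𝒢^cs`. If `G` is contractible neither to `P5`, nor to the banner,
nor to any `K_{m,n}` with `2 ≤ m < n`, then `G ∈ 𝒢^cs`. -/
theorem result {V : Type u} [Fintype V] (G : SimpleGraph V) (hG : G.Connected) :
    ((ContractibleTo G (SimpleGraph.pathGraph 5) ∨ ContractibleTo G banner ∨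
      ∃ n : ℕ, 3 ≤ n ∧ ContractibleTo G (completeBipartiteGraph (Fin 2) (Fin n))) →
        ¬ InGcs G) ∧
    ((¬ ContractibleTo G (SimpleGraph.pathGraph 5) ∧ ¬ ContractibleTo G banner ∧
      ∀ m n : ℕ, 2 ≤ m → m < n →
        ¬ ContractibleTo G (completeBipartiteGraph (Fin m) (Fin n))) → InGcs G) :=
  ⟨not_inGcs_of_contractible hG, fun h => inGcs_of_not_contractible hG h.1 h.2.1 h.2.2⟩

end Pool.Agent.Results.MP_9f10ef_co.ContractionCriterion
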